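import Pool.Agent.T2h83.GT.Real
import Pool.Agent.T2h83.GD.Least

/-!
# The least prime in the Goldbach representations of the even integers in a residue class of any modulus up to
# `x ^ (5 / 6 - ρ)`

For an even integer `m` let `g(m)` be the least prime `p` such that `m - p` is a prime. We say that `m` has the
property `Small A m` if `g(m) ≤ m / (log m)^A`.

For `1 ≤ u ≤ 3` let `F(u) = log u + ∫_1^(u/2) log ((u - s) / s) ds / s` (the integral is absent for `u ≤ 2`); it is the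
integral of Buchstab's function from `1` to `u`.

Let `2 / 3 ≤ θ ≤ 5 / 6` and `F = F (θ / (2 - 2 θ))`, so that `0 ≤ F ≤ 0.965`. For every modulus `q ≤ x ^ (θ - ρ)`,
without exceptional moduli, and every residue class `a` modulo `q` with `gcd(a, q) ≤ (log x)^T`, all but at most
`x / (q (log x)^B)` of the even integers `m ≤ x`, `m ≡ a (mod q)`, satisfy `g(m) ≤ m / (log m)^A`; moreover every window
`(y₁, y₂] ⊆ (0, m]` of length at least `m / (log m)^A` contains between `1 - F² - ε` times and `1 + F + ε` times the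
number `𝔖(m) (y₂ - y₁) / (log m)²` of primes `p` with `m - p` prime which Hardy and Littlewood predict. Consequently,
for every large `q`, each class `a` modulo `q` with `gcd(a, q) ≤ (log q)^T` (`a` even, if `q` is even) contains an even
integer `m ≤ q ^ (6 / 5 + ε)` which is a sum of two primes and satisfies `g(m) ≤ m / (log m)^A`.

The proof (project GT, `T2h83/GT`) compares the primes with the sieve function
`1_{no prime factor ≤ N ^ (1 - θ)}(n) * Σ_{d ∣ n, d > N ^ (1 - θ / 2)} Λ(d)`, which is at least `Λ`, whose mean value is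
`1 + F`, and which is well distributed in the arithmetic progressions of the moduli `q r`, `r` small.
-/

set_option autoImplicit false

namespace Pool.Agent.Results.MP_bae66e_nt.EveryModulusFiveSixths

open Finset
open Pool.Agent.H560R3.GB (sing)
open Pool.Agent.T2h83.GT (WinT)

/-- there is a prime `p ≤ m / (log m)^A` such that `m - p` is a prime, that is, `g(m) ≤ m / (log m)^A` -/
def Small (A m : ℕ) : Prop := ∃ p : ℕ, p.Prime ∧ (m - p).Prime ∧ (p : ℝ) ≤ m / Real.log m ^ A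

/-- the number of primes `p` with `y₁ < p ≤ y₂` such that `m - p` is a prime -/
def cnt (m y₁ y₂ : ℕ) : ℕ := ((Ioc y₁ y₂).filter (fun p => p.Prime ∧ (m - p).Prime)).card

/-- Every window `(y₁, y₂] ⊆ (0, m]` of length at least `m / (log m)^A` contains between `lo` times and `hi` times
`𝔖(m) (y₂ - y₁) / (log m)²` primes `p` such that `m - p` is a prime. -/
def Windows (A : ℕ) (lo hi : ℝ) (m : ℕ) : Prop :=
  ∀ y₁ y₂ : ℕ, y₁ < y₂ → y₂ ≤ m → (m : ℝ) / Real.log m ^ A ≤ (y₂ : ℝ) - y₁ →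
    lo * (sing m * ((y₂ : ℝ) - y₁) / Real.log m ^ 2) ≤ (cnt m y₁ y₂ : ℝ) ∧
    (cnt m y₁ y₂ : ℝ) ≤ hi * (sing m * ((y₂ : ℝ) - y₁) / Real.log m ^ 2)

/-- the even integers `0 < m ≤ x`, `m ≡ a (mod q)`, for which `Small A m` or `Windows A lo hi m` is false -/
def exceptional (A : ℕ) (lo hi x : ℝ) (q : ℕ) (a : ℤ) : Set ℕ :=
  {m : ℕ | 0 < m ∧ (m : ℝ) ≤ x ∧ 2 ∣ m ∧ (m : ℤ) ≡ a [ZMOD q] ∧ ¬ (Small A m ∧ Windows A lo hi m)}

/-- the function `F(u) = log u + ∫_1^(u/2) log ((u - s) / s) ds / s` -/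
noncomputable def F (u : ℝ) : ℝ := Real.log u + ∫ s in (1 : ℝ)..max 1 (u / 2), Real.log ((u - s) / s) / s

lemma winT_mono {lo hi : ℝ} (A B m : ℕ) (hAB : A ≤ B) (hm : 1 ≤ Real.log m)
    (h : 3 ≤ m → WinT B lo hi m) : 3 ≤ m → WinT A lo hi m := by
  intro h3 y₁ y₂ h1 h2 h4
  refine h h3 y₁ y₂ h1 h2 (le_trans ?_ h4)
  exact div_le_div_of_nonneg_left (Nat.cast_nonneg _) (by positivity) (pow_le_pow_right₀ hm hAB)

theorem holds_of (A : ℕ) {lo hi : ℝ} (hlo : 0 < lo) : ∃ m₀ : ℕ, ∀ m : ℕ, m₀ ≤ m → 2 ∣ m →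
    (3 ≤ m → WinT (A + 1) lo hi m) → Small A m ∧ Windows A lo hi m := by
  obtain ⟨n1, hn1⟩ := Filter.eventually_atTop.1
    (Pool.Agent.Y614.GJ.Core.ev_log (A + 1) (s := 1) one_pos 4)
  refine ⟨n1 + 3, fun m hm _ hw => ?_⟩
  obtain ⟨hL4, hLp⟩ := hn1 m (by omega)
  rw [Real.rpow_one] at hLp
  have hL1 : 1 ≤ Real.log m := by linarith
  have hL0 : 0 < Real.log m := by linarith
  have hw1 : WinT (A + 1) lo hi m := hw (by omega)
  have hw' : WinT A lo hi m := winT_mono A (A + 1) m (Nat.le_succ A) hL1 hw (by omega)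
  refine ⟨?_, hw'⟩
  have hm0 : (0 : ℝ) < m := by exact_mod_cast (by omega : 0 < m)
  obtain ⟨y, hy⟩ : ∃ y, y = ⌊(m : ℝ) / Real.log m ^ A⌋₊ := ⟨_, rfl⟩
  have hyle : (y : ℝ) ≤ m / Real.log m ^ A := by rw [hy]; exact Nat.floor_le (by positivity)
  have hylt : (m : ℝ) / Real.log m ^ A < y + 1 := by rw [hy]; exact Nat.lt_floor_add_one _
  have h1 : 1 ≤ (m : ℝ) / Real.log m ^ (A + 1) := by
    rw [le_div_iff₀ (by positivity), one_mul]
    exact hLp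
  have h2 : (m : ℝ) / Real.log m ^ A = m / Real.log m ^ (A + 1) * Real.log m := by
    rw [pow_succ]
    field_simp
  have h3 : (m : ℝ) / Real.log m ^ (A + 1) ≤ y := by nlinarith
  have hy0 : 0 < y := by
    have : (0 : ℝ) < y := by linarith
    exact_mod_cast this
  have hym : y ≤ m := by
    have : (y : ℝ) ≤ m := hyle.trans (div_le_self hm0.le (one_le_pow₀ hL1))
    exact_mod_cast this
  have h4 := (hw1 0 y hy0 hym (by push_cast; linarith)).1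
  have hs := Pool.Agent.R460.GS.one_le_sing m
  have hyr : (0 : ℝ) < y := by exact_mod_cast hy0
  have h5 : 0 < lo * (sing m * ((y : ℝ) - ((0 : ℕ) : ℝ)) / Real.log m ^ 2) := by
    push_cast
    rw [sub_zero]
    positivity
  have h6 : (0 : ℝ) < (Pool.Agent.W93.PG.cnt m 0 y : ℝ) := lt_of_lt_of_le h5 h4
  have h7 : 0 < Pool.Agent.W93.PG.cnt m 0 y := by exact_mod_cast h6
  unfold Pool.Agent.W93.PG.cnt at h7
  rw [card_pos] at h7
  obtain ⟨p, hp⟩ := h7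
  rw [mem_filter, mem_Ioc] at hp
  refine ⟨p, hp.2.1, hp.2.2, le_trans ?_ hyle⟩
  exact_mod_cast hp.1.2

/-- the theorem with the constants `1 - F² - ε > 0` and `1 + F + ε` -/
theorem few {θ : ℝ} (hθ0 : 2 / 3 ≤ θ) (hθ1 : θ ≤ 5 / 6) (ε : ℝ) (hε : 0 < ε)
    (hlo : 0 < 1 - F (θ / (2 - 2 * θ)) ^ 2 - ε) (ρ : ℝ) (hρ : 0 < ρ) (A B T : ℕ) :
    ∃ x₀ : ℝ, ∀ x : ℝ, x₀ ≤ x → ∀ q : ℕ, 1 ≤ q → (q : ℝ) ≤ x ^ (θ - ρ) →
      ∀ a : ℤ, (Int.gcd a q : ℝ) ≤ Real.log x ^ T →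
        (exceptional A (1 - F (θ / (2 - 2 * θ)) ^ 2 - ε) (1 + F (θ / (2 - 2 * θ)) + ε) x q a).Finite ∧
        ((exceptional A (1 - F (θ / (2 - 2 * θ)) ^ 2 - ε) (1 + F (θ / (2 - 2 * θ)) + ε) x q a).ncard : ℝ) ≤
          x / (q * Real.log x ^ B) := by
  refine Pool.Agent.T2h83.GT.class_few_gen (θ := θ) (by linarith)
    (fun A m => 3 ≤ m → WinT A (1 - F (θ / (2 - 2 * θ)) ^ 2 - ε) (1 + F (θ / (2 - 2 * θ)) + ε) m)
    (fun A B m h1 h2 h3 => winT_mono A B m h1 h2 h3)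
    (fun t ht A T => Pool.Agent.T2h83.GT.gt_F ε hε hθ0 hθ1 t ht A T)
    (fun m => Small A m ∧ Windows A (1 - F (θ / (2 - 2 * θ)) ^ 2 - ε) (1 + F (θ / (2 - 2 * θ)) + ε) m)
    (A + 1) (holds_of A hlo) ρ hρ B T

/-- each class contains a small even integer with the property `Small` -/
theorem least (A : ℕ) (ε : ℝ) (hε : 0 < ε) (T : ℕ) : ∃ q₀ : ℕ, ∀ q : ℕ, q₀ ≤ q → ∀ a : ℤ,
    (Int.gcd a q : ℝ) ≤ Real.log q ^ T → (Even a ∨ Odd q) →
      ∃ m : ℕ, Even m ∧ (m : ℤ) ≡ a [ZMOD q] ∧ (m : ℝ) ≤ (q : ℝ) ^ (6 / 5 + ε) ∧ Small A m := by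
  classical
  obtain ⟨e, he⟩ : ∃ e, e = min ε 1 := ⟨_, rfl⟩
  have he0 : 0 < e := by rw [he]; exact lt_min hε one_pos
  have he1 : e ≤ 1 := by rw [he]; exact min_le_right _ _
  have he2 : e ≤ ε := by rw [he]; exact min_le_left _ _
  obtain ⟨f0, f1⟩ := Pool.Agent.T2h83.GT.FU_bd (θ := 5 / 6) (by norm_num) le_rfl
  have hFU : ∀ u, F u = Pool.Agent.T2h83.GT.FU u := fun u => rfl
  rw [← hFU] at f0 f1
  have hlo : 0 < 1 - F (5 / 6 / (2 - 2 * (5 / 6))) ^ 2 - 1 / 100 := by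
    have hF2 : F (5 / 6 / (2 - 2 * (5 / 6))) ^ 2 ≤ (965 / 1000) ^ 2 := pow_le_pow_left₀ f0 f1 2
    norm_num at hF2 ⊢
    linarith
  obtain ⟨x₀, h1⟩ := few (θ := 5 / 6) (by norm_num) le_rfl (1 / 100) (by norm_num) hlo (e / 6) (by positivity) A 1 T
  obtain ⟨Q₁, h2⟩ := Filter.eventually_atTop.1 (Pool.Agent.Y614.GJ.Core.ev_log 1 (s := e / 8) (by positivity)
    (64 + |x₀|))
  refine ⟨Q₁ + 3, fun q hq a ha hpar => ?_⟩
  obtain ⟨hL, hLp⟩ := h2 q (by omega)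
  rw [pow_one] at hLp
  have habs := abs_nonneg x₀
  have habs' := le_abs_self x₀
  have hq1 : 1 ≤ q := by omega
  have hqr : (1 : ℝ) ≤ q := by exact_mod_cast hq1
  have hq0 : (0 : ℝ) < q := by linarith
  obtain ⟨x, hx⟩ : ∃ x : ℝ, x = (q : ℝ) ^ (6 / 5 + e) := ⟨_, rfl⟩
  have hqe : (64 : ℝ) ≤ (q : ℝ) ^ (e / 8) := by linarith
  have hx1 : (q : ℝ) ^ (6 / 5 + e / 2) ≤ x := by
    rw [hx]
    exact Real.rpow_le_rpow_of_exponent_le hqr (by linarith)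
  have hqx0 : (q : ℝ) ≤ (q : ℝ) ^ (6 / 5 + e / 2) := by
    calc (q : ℝ) = (q : ℝ) ^ (1 : ℝ) := (Real.rpow_one _).symm
      _ ≤ _ := Real.rpow_le_rpow_of_exponent_le hqr (by linarith)
  have hqx1 : 32 * (q : ℝ) ≤ x := by
    refine le_trans ?_ hx1
    calc 32 * (q : ℝ) ≤ (q : ℝ) ^ (e / 8) * q := by
          apply mul_le_mul_of_nonneg_right _ hq0.le
          linarith
      _ = (q : ℝ) ^ (e / 8 + 1) := by rw [Real.rpow_add hq0, Real.rpow_one]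
      _ ≤ (q : ℝ) ^ (6 / 5 + e / 2) := Real.rpow_le_rpow_of_exponent_le hqr (by linarith)
  have hLq : Real.log q ≤ q := (Real.log_le_sub_one_of_pos hq0).trans (by linarith)
  have hx0 : 0 < x := by linarith
  have hlogx : Real.log q ≤ Real.log x := Real.log_le_log hq0 (by linarith)
  have hqx2 : (q : ℝ) ≤ x ^ (5 / 6 - e / 6) := by
    calc (q : ℝ) = (q : ℝ) ^ (1 : ℝ) := (Real.rpow_one _).symm
      _ ≤ (q : ℝ) ^ ((6 / 5 + e / 2) * (5 / 6 - e / 6)) := by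
          apply Real.rpow_le_rpow_of_exponent_le hqr
          nlinarith
      _ = ((q : ℝ) ^ (6 / 5 + e / 2)) ^ (5 / 6 - e / 6) := by rw [← Real.rpow_mul hq0.le]
      _ ≤ x ^ (5 / 6 - e / 6) := Real.rpow_le_rpow (by positivity) hx1 (by linarith)
  have hgcd : (Int.gcd a q : ℝ) ≤ Real.log x ^ T := ha.trans (pow_le_pow_left₀ (by linarith) hlogx T)
  obtain ⟨g1, g2⟩ := h1 x (by linarith) q hq1 hqx2 a hgcd
  -- an even number in the class
  obtain ⟨b, hb1, hb2⟩ : ∃ b : ℤ, Even b ∧ b ≡ a [ZMOD q] := by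
    rcases hpar with h | h
    · exact ⟨a, h, Int.ModEq.refl _⟩
    · rcases Int.even_or_odd a with h3 | h3
      · exact ⟨a, h3, Int.ModEq.refl _⟩
      · refine ⟨a + q, h3.add_odd (by exact_mod_cast h), ?_⟩
        rw [Int.modEq_iff_dvd]
        exact ⟨-1, by ring⟩
  have hlx : 64 ≤ Real.log x := by linarith
  obtain ⟨h, k1, k2, k3, k4⟩ := Pool.Agent.T2h83.GD.exists_good (x := x) (q := q) (M := 2) (b := b) (by norm_num)
    (by push_cast; linarith) _ g1 (by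
      refine g2.trans ?_
      apply div_le_div_of_nonneg_left hx0.le (by positivity)
      rw [pow_one]
      apply mul_le_mul_of_nonneg_left _ hq0.le
      push_cast
      linarith) hq1 (by push_cast; linarith)
  rw [Int.modEq_iff_dvd] at k3 hb2
  push_cast at k3
  have k5 : 2 ∣ h := by
    have h3 : (2 : ℤ) ∣ b - h := (Dvd.intro_left _ rfl).trans k3
    have h4 : (2 : ℤ) ∣ b := even_iff_two_dvd.1 hb1
    have h5 : (2 : ℤ) ∣ h := (Int.dvd_iff_dvd_of_dvd_sub h3).1 h4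
    exact_mod_cast h5
  have k6 : (h : ℤ) ≡ a [ZMOD q] := by
    rw [Int.modEq_iff_dvd]
    have h3 : (q : ℤ) ∣ b - h := (Dvd.intro _ rfl).trans k3
    have h4 := Int.dvd_add hb2 h3
    rwa [show a - b + (b - h) = a - (h : ℤ) by ring] at h4
  refine ⟨h, even_iff_two_dvd.2 k5, k6, ?_, ?_⟩
  · refine k2.trans ?_
    rw [hx]
    exact Real.rpow_le_rpow_of_exponent_le hqr (by linarith)
  · by_contra hcon
    exact k4 ⟨k1, k2, k5, k6, fun h3 => hcon h3.1⟩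

/-- Let `2 / 3 ≤ θ ≤ 5 / 6` and `F = F (θ / (2 - 2 θ))`. Then `0 ≤ F ≤ 0.965`, and for all `0 < ε < 1 - F²`, all `ρ > 0`
and all `A, B, T`, for all large `x`, every modulus `q ≤ x ^ (θ - ρ)` and every `a` with `gcd(a, q) ≤ (log x)^T`, all
but at most `x / (q (log x)^B)` of the even `m ≤ x`, `m ≡ a (mod q)`, satisfy `g(m) ≤ m / (log m)^A` and have in every
window of length at least `m / (log m)^A` between `1 - F² - ε` times and `1 + F + ε` times the predicted number of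
Goldbach pairs. For all large `q`, each class `a` modulo `q` with `gcd(a, q) ≤ (log q)^T` (`a` even, if `q` is even)
contains an even `m ≤ q ^ (6 / 5 + ε)` with `g(m) ≤ m / (log m)^A`. -/
theorem result :
    (∀ θ : ℝ, 2 / 3 ≤ θ → θ ≤ 5 / 6 →
      (0 ≤ F (θ / (2 - 2 * θ)) ∧ F (θ / (2 - 2 * θ)) ≤ 0.965) ∧
      ∀ ε : ℝ, 0 < ε → ε < 1 - F (θ / (2 - 2 * θ)) ^ 2 → ∀ ρ : ℝ, 0 < ρ → ∀ A B T : ℕ,
        ∃ x₀ : ℝ, ∀ x : ℝ, x₀ ≤ x → ∀ q : ℕ, 1 ≤ q → (q : ℝ) ≤ x ^ (θ - ρ) →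
          ∀ a : ℤ, (Int.gcd a q : ℝ) ≤ Real.log x ^ T →
            (exceptional A (1 - F (θ / (2 - 2 * θ)) ^ 2 - ε) (1 + F (θ / (2 - 2 * θ)) + ε) x q a).Finite ∧
            ((exceptional A (1 - F (θ / (2 - 2 * θ)) ^ 2 - ε) (1 + F (θ / (2 - 2 * θ)) + ε) x q a).ncard : ℝ) ≤
              x / (q * Real.log x ^ B)) ∧
    (∀ A : ℕ, ∀ ε : ℝ, 0 < ε → ∀ T : ℕ, ∃ q₀ : ℕ, ∀ q : ℕ, q₀ ≤ q → ∀ a : ℤ,
      (Int.gcd a q : ℝ) ≤ Real.log q ^ T → (Even a ∨ Odd q) →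
        ∃ m : ℕ, Even m ∧ (m : ℤ) ≡ a [ZMOD q] ∧ (m : ℝ) ≤ (q : ℝ) ^ (6 / 5 + ε) ∧ Small A m) := by
  refine ⟨fun θ h1 h2 => ?_, fun A ε hε T => least A ε hε T⟩
  obtain ⟨h3, h4⟩ := Pool.Agent.T2h83.GT.FU_bd h1 h2
  have hFU : ∀ u, F u = Pool.Agent.T2h83.GT.FU u := fun u => rfl
  refine ⟨?_, fun ε hε hε1 ρ hρ A B T => few h1 h2 ε hε (by linarith) ρ hρ A B T⟩
  rw [hFU]
  exact ⟨h3, by linarith⟩

end Pool.Agent.Results.MP_bae66e_nt.EveryModulusFiveSixths
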