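import Pool.Agent.T2h81.UC.G6

set_option autoImplicit false

/-! # Large least summands: a positive proportion of the even numbers, with all their multiples, in short runs

There are `C` and, for `0 < η ≤ 1`, `X₀` such that for all `X ≥ X₀`, `λ ≥ 1`, `0 < ε ≤ 1`, all integers `A ≥ 1`, with
`E = C A λ / (ε η)`, all intervals `(M, M + N]` with `N ≥ X ^ η`, and all `m` with
`log X log log X exp(exp E) ≤ m ≤ X ^ (η / 2)`: for all but `ε N` of the `n` of the interval at least
`exp(-exp E) m` of the integers of `(n, n + m]` are even numbers `k` such that for every multiple `j = a k`, `a ≤ A`,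
all the primes `p` for which `j - p` or `j + p` is a prime are larger than `λ log X log log X`; in particular the least
summands `g(k), g(2 k), …, g(A k)` of the Goldbach representations are larger than that.

The expected order of `g(k)` is `log k log log k` for almost all `k`. For fixed `λ`, `A`, `ε` the theorem gives a
positive proportion (for `M = 0`, `N = X`: a positive lower density) of the even `k` with
`g(a k) > λ log k log log k` for all `a ≤ A`. Everything but `η` may vary: the theorem is uniform for
`A λ / ε ≤ c η log log X`, and for `λ` of this size gives `g(a k) > c log k (log log k) ^ 2` for `a ≤ A` in almost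
all short runs.

Proof: the sets of forms `a (n + k) ± p`, `p` prime up to `Y = λ log X log log X`, `p` not dividing `a`, for `k` in a
residue class modulo `2 Y + 2` are in general position; for almost all classes of `n` modulo the primes up to a small
multiple of `log X` most of the sets have few members without such a prime factor (first moment, Chebyshev's bound),
and a second class of primes, up to `X ^ c`, covers the rest of at least one set of every group of
`exp(exp(O(E)))` sets for almost all `n` (`Pool.Agent.T2h81.UC`, on the basis of the starting library's covering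
sieve `Y831.RC`); at last one averages over the residue classes modulo `2 Y + 2`. -/

namespace Pool.Agent.Results.MP_bae66e_nt.LargeForAllMultiples

open Pool.Agent.T2h81.UC

/-- All the primes `p` for which `j - p` or `j + p` is a prime are larger than `t`. -/
def AllLarge (t : ℝ) (j : ℕ) : Prop :=
  ∀ p q : ℕ, p.Prime → q.Prime → (p + q = j ∨ j + p = q) → t < p

theorem result : ∃ C : ℝ, 1 ≤ C ∧ ∀ η : ℝ, 0 < η → η ≤ 1 → ∃ X₀ : ℝ, ∀ X : ℝ, X₀ ≤ X →
    ∀ (lam ε : ℝ) (A : ℕ), 1 ≤ lam → 0 < ε → ε ≤ 1 → 1 ≤ A → ∀ M N : ℕ, X ^ η ≤ N → ∀ m : ℕ,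
    Real.log X * Real.log (Real.log X) * Real.exp (Real.exp (C * (A * lam / (ε * η)))) ≤ m →
    (m : ℝ) ≤ X ^ (η / 2) →
      ({n : ℕ | M < n ∧ n ≤ M + N ∧
          (({k : ℕ | n < k ∧ k ≤ n + m ∧ Even k ∧ ∀ a : ℕ, 1 ≤ a → a ≤ A →
              AllLarge (lam * Real.log X * Real.log (Real.log X)) (a * k)}.ncard : ℕ) : ℝ) <
            Real.exp (-Real.exp (C * (A * lam / (ε * η)))) * m}.ncard : ℝ) ≤ ε * N := by
  classical
  obtain ⟨C, hC, h⟩ := gold_main
  refine ⟨C, hC, fun η hη hη1 => ?_⟩
  obtain ⟨X₀, hX₀⟩ := h η hη hη1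
  refine ⟨X₀, fun X hX lam ε A hlam hε hε1 hA M N hN m hm1 hm2 => ?_⟩
  refine le_trans (le_of_eq ?_) (hX₀ X hX lam ε A hlam hε hε1 hA M N hN m hm1 hm2)
  rw [Nat.cast_inj]
  have hin : ∀ n : ℕ, {k : ℕ | n < k ∧ k ≤ n + m ∧ Even k ∧ ∀ a : ℕ, 1 ≤ a → a ≤ A →
      AllLarge (lam * Real.log X * Real.log (Real.log X)) (a * k)}.ncard =
      ((Finset.Ioc n (n + m)).filter (fun k => Even k ∧ ∀ a : ℕ, 1 ≤ a → a ≤ A →
        AllLg (lam * Real.log X * Real.log (Real.log X)) (a * k))).card := by
    intro n
    rw [← Set.ncard_coe_finset]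
    congr 1
    ext d
    rw [Finset.coe_filter, Set.mem_ofPred_eq, Set.mem_ofPred_eq, Finset.mem_Ioc, and_assoc]
    rfl
  rw [← Set.ncard_coe_finset]
  congr 1
  ext n
  rw [Finset.coe_filter, Set.mem_ofPred_eq, Set.mem_ofPred_eq, Finset.mem_Ioc, hin n, and_assoc]

end Pool.Agent.Results.MP_bae66e_nt.LargeForAllMultiples
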