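import Mathlib
import Pool.Agent.H378R2.PT.Main
import Pool.Agent.H674R2.PT.T1
import Pool.Agent.H398R2.RK.Surv

set_option autoImplicit false

namespace Pool.Agent.Results.MP_bae66e_nt.LargeOnPatterns

open Finset
open Pool.Agent.H256R2.SC (ff)
open Pool.Agent.H256R2.SC.LG (ev_log log_sq_le)

/-- `F(x) = log x (log₂ x)³ log₄ x / (log₃ x)²` (iterated natural logarithms). -/
noncomputable def F (x : ℝ) : ℝ :=
  Real.log x * (Real.log (Real.log x)) ^ 3 * Real.log (Real.log (Real.log (Real.log x))) /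
    (Real.log (Real.log (Real.log x))) ^ 2

/-- For every `s ∈ S` all primes `p` for which `m + s - p` or `m + s + p` is prime are larger than `t`. -/
def AllLarge (S : Finset ℕ) (t : ℝ) (m : ℕ) : Prop :=
  ∀ s ∈ S, ∀ p q : ℕ, p.Prime → q.Prime → (p + q = m + s ∨ m + s + p = q) → t < p

/-- comparison of the iterated logarithms of `x` and `x ^ δ` -/
theorem F_pow (δ : ℝ) (hδ : 0 < δ) (hδ1 : δ ≤ 1) : ∃ X₀ : ℝ, 1 ≤ X₀ ∧ ∀ x : ℝ, X₀ ≤ x →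
    100 ≤ Real.log x ∧ 100 ≤ Real.log (x ^ δ) ∧ Real.log x = Real.log (x ^ δ) / δ ∧
    100 ≤ Real.log (Real.log (x ^ δ)) ∧
    Real.log (Real.log (x ^ δ)) ≤ Real.log (Real.log x) ∧
    Real.log (Real.log x) ≤ 2 * Real.log (Real.log (x ^ δ)) ∧
    100 ≤ Real.log (Real.log (Real.log (Real.log x))) ∧
    0 < F x ∧ F x ≤ (16 / δ) * (ff (x ^ δ) * Real.log (Real.log (x ^ δ))) := by
  obtain ⟨X₁, h₁⟩ := ev_log (max 100 (100 + 2 * (1 / δ)))
  refine ⟨max 1 (max X₁ 1 ^ (1 / δ)), le_max_left _ _, fun x hx => ?_⟩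
  have hx1 : 1 ≤ x := (le_max_left _ _).trans hx
  have hx0 : 0 < x := by linarith
  have hxδ : X₁ ≤ x ^ δ := by
    have h2 : max X₁ 1 ^ (1 / δ) ≤ x := (le_max_right _ _).trans hx
    have h3 : (max X₁ 1 ^ (1 / δ)) ^ δ ≤ x ^ δ :=
      Real.rpow_le_rpow (Real.rpow_nonneg (by positivity) _) h2 hδ.le
    rw [← Real.rpow_mul (by positivity), one_div, inv_mul_cancel₀ hδ.ne', Real.rpow_one] at h3
    exact (le_max_left _ _).trans h3
  obtain ⟨-, m1, m2, m3, m4⟩ := h₁ _ hxδ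
  have hlog : Real.log (x ^ δ) = δ * Real.log x := Real.log_rpow hx0 δ
  have n1 := (le_max_left _ _).trans m1
  have n2 := (le_max_left _ _).trans m2
  have n3 := (le_max_left _ _).trans m3
  have n4 := (le_max_left _ _).trans m4
  have k2 := (le_max_right _ _).trans m2
  obtain ⟨l1, hl1⟩ : ∃ l, l = Real.log (x ^ δ) := ⟨_, rfl⟩
  have e1 : Real.log x = l1 / δ := by rw [hl1, hlog]; field_simp
  rw [← hl1] at n1 n2 n3 n4 k2 ⊢
  obtain ⟨l2, hl2⟩ : ∃ l, l = Real.log l1 := ⟨_, rfl⟩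
  rw [← hl2] at n2 n3 n4 k2 ⊢
  obtain ⟨l3, hl3⟩ : ∃ l, l = Real.log l2 := ⟨_, rfl⟩
  rw [← hl3] at n3 n4
  obtain ⟨l4, hl4⟩ : ∃ l, l = Real.log l3 := ⟨_, rfl⟩
  rw [← hl4] at n4
  have p1 : 0 < l1 := by linarith
  have p2 : 0 < l2 := by linarith
  have p3 : 0 < l3 := by linarith
  have p4 : 0 < l4 := by linarith
  -- the second logarithm
  have hL2 : Real.log (Real.log x) = l2 + Real.log (1 / δ) := by
    rw [e1, hl2, div_eq_mul_one_div, Real.log_mul p1.ne' (by positivity)]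
  have hd0 : 0 ≤ Real.log (1 / δ) := Real.log_nonneg (by rw [le_div_iff₀ hδ]; linarith)
  have hd1 : Real.log (1 / δ) ≤ 1 / δ := by
    have := Real.log_le_sub_one_of_pos (show 0 < 1 / δ by positivity)
    linarith
  have hd2 : 1 / δ ≤ l2 / 2 := by linarith
  obtain ⟨L2, hL2'⟩ : ∃ l, l = Real.log (Real.log x) := ⟨_, rfl⟩
  rw [← hL2'] at hL2 ⊢
  have a1 : l2 ≤ L2 := by linarith
  have a2 : L2 ≤ 2 * l2 := by linarith
  -- the third logarithm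
  obtain ⟨L3, hL3⟩ : ∃ l, l = Real.log L2 := ⟨_, rfl⟩
  have a3 : l3 ≤ L3 := by rw [hl3, hL3]; exact Real.log_le_log p2 a1
  have a4 : L3 ≤ 2 * l3 := by
    have h5 : L3 ≤ Real.log 2 + l3 := by
      rw [hL3, hl3, ← Real.log_mul (by norm_num) p2.ne']
      exact Real.log_le_log (by linarith) a2
    have := Real.log_two_lt_d9
    linarith
  obtain ⟨L4, hL4⟩ : ∃ l, l = Real.log L3 := ⟨_, rfl⟩
  have a5 : l4 ≤ L4 := by rw [hl4, hL4]; exact Real.log_le_log p3 a3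
  have a6 : L4 ≤ 2 * l4 := by
    have h5 : L4 ≤ Real.log 2 + l4 := by
      rw [hL4, hl4, ← Real.log_mul (by norm_num) p3.ne']
      exact Real.log_le_log (by linarith) a4
    have := Real.log_two_lt_d9
    linarith
  have hFx : F x = (l1 / δ) * L2 ^ 3 * L4 / L3 ^ 2 := by
    unfold F
    rw [← hL2', ← hL3, ← hL4, e1]
  have hff : ff (x ^ δ) = l1 * l2 ^ 2 * l4 / l3 ^ 2 := by
    unfold ff
    rw [← hl1, ← hl2, ← hl3, ← hl4]
  have hL20 : 0 < L2 := by linarith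
  have hL30 : 0 < L3 := by linarith
  have hL40 : 0 < L4 := by linarith
  refine ⟨?_, n1, e1, n2, a1, a2, ?_, ?_, ?_⟩
  · rw [e1, le_div_iff₀ hδ]; nlinarith
  · rw [← hL3, ← hL4]; linarith
  · rw [hFx]; positivity
  · rw [hFx, hff]
    calc (l1 / δ) * L2 ^ 3 * L4 / L3 ^ 2 ≤ (l1 / δ) * (2 * l2) ^ 3 * (2 * l4) / l3 ^ 2 := by gcongr
      _ = 16 / δ * (l1 * l2 ^ 2 * l4 / l3 ^ 2 * l2) := by ring

theorem card_est {c c₀ δ Y l2 f s π L lL z : ℝ} (hs : 0 < s) (hl2 : 0 < l2) (hδ : 0 < δ) (hc : 0 ≤ c)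
    (hY0 : 0 ≤ Y) (hc₀ : 0 ≤ c₀) (hz : z ≤ 2 * (s * π)) (hπ : π ≤ 10 * L / lL)
    (hL : L ≤ c * Y / s) (hlL : l2 / 2 ≤ lL) (hY : Y ≤ 16 / δ * (f * l2)) (hcc : c ≤ c₀ * δ / 640) :
    z ≤ c₀ * f := by
  calc z ≤ 2 * (s * π) := hz
    _ ≤ 2 * (s * (10 * L / lL)) := by gcongr
    _ ≤ 2 * (s * (10 * (c * Y / s) / (l2 / 2))) := by gcongr
    _ = 40 * c * (Y / l2) := by field_simp; ring
    _ ≤ 40 * (c₀ * δ / 640) * (16 / δ * (f * l2) / l2) := by gcongr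
    _ = c₀ * f := by field_simp; ring

theorem core (δ : ℝ) (hδ : 0 < δ) (hδ1 : δ ≤ 1) (A D : ℕ) (hD : 0 < D) : ∃ c : ℝ, 0 < c ∧
    ∃ X₀ : ℝ, 1 ≤ X₀ ∧ ∀ x : ℝ, X₀ ≤ x → ∀ M : ℝ, x ^ δ ≤ M → ∀ (r : ℕ) (S : Finset ℕ), S.Nonempty →
      (S.card : ℝ) ≤ √(Real.log x) → (∀ s ∈ S, (s : ℝ) ≤ Real.log x * Real.log (Real.log x) ^ A) →
      ∃ m : ℕ, M < m ∧ (m : ℝ) ≤ M + x ^ δ ∧ m ≡ r [MOD D] ∧ AllLarge S (c * F x / S.card) m := by
  obtain ⟨c₀, hc₀, X₁, h⟩ := Pool.Agent.H378R2.PT.main_of (A + 5)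
    (Pool.Agent.H378R2.PT.rough_count (A + 5 + 1)) D hD
  obtain ⟨X₂, hX₂1, h₂⟩ := F_pow δ hδ hδ1
  obtain ⟨c, hc⟩ : ∃ c : ℝ, c = min 1 (c₀ * δ / 640) := ⟨_, rfl⟩
  have hc0 : 0 < c := by rw [hc]; exact lt_min one_pos (by positivity)
  have hc1 : c ≤ 1 := by rw [hc]; exact min_le_left _ _
  have hc2 : c ≤ c₀ * δ / 640 := by rw [hc]; exact min_le_right _ _
  obtain ⟨X₃, h₃⟩ := ev_log (100 + 8 / c + 2 ^ (A + 1) / δ + 32 / δ)
  refine ⟨c, hc0, max (max X₁ 1 ^ (1 / δ)) (max X₂ (max X₃ 1 ^ (1 / δ))), ?_, ?_⟩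
  · exact hX₂1.trans ((le_max_left _ _).trans (le_max_right _ _))
  intro x hx M hM r S hS hScard hSle
  have hx1 : max X₁ 1 ^ (1 / δ) ≤ x := (le_max_left _ _).trans hx
  have hx2 : X₂ ≤ x := (le_max_left _ _).trans ((le_max_right _ _).trans hx)
  have hx3 : max X₃ 1 ^ (1 / δ) ≤ x := (le_max_right _ _).trans ((le_max_right _ _).trans hx)
  have hx0 : 0 < x := by linarith
  have hpow : ∀ Y : ℝ, max Y 1 ^ (1 / δ) ≤ x → Y ≤ x ^ δ := by
    intro Y hY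
    have h3 : (max Y 1 ^ (1 / δ)) ^ δ ≤ x ^ δ :=
      Real.rpow_le_rpow (Real.rpow_nonneg (by positivity) _) hY hδ.le
    rw [← Real.rpow_mul (by positivity), one_div, inv_mul_cancel₀ hδ.ne', Real.rpow_one] at h3
    exact (le_max_left _ _).trans h3
  obtain ⟨f1, f2, f3, f4, f5, f6, f7, f8, f9⟩ := h₂ x hx2
  obtain ⟨-, g1, g2, g3, g4⟩ := h₃ (x ^ δ) (hpow X₃ hx3)
  have hX1 := hpow X₁ hx1
  obtain ⟨X, hX⟩ : ∃ X, X = x ^ δ := ⟨_, rfl⟩
  rw [← hX] at f2 f3 f4 f5 f6 f9 g1 g2 g3 g4 hM hX1 ⊢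
  obtain ⟨l1, hl1⟩ : ∃ l, l = Real.log X := ⟨_, rfl⟩
  rw [← hl1] at f2 f3 f4 f5 f6 f9 g1 g2 g3 g4
  obtain ⟨l2, hl2⟩ : ∃ l, l = Real.log l1 := ⟨_, rfl⟩
  rw [← hl2] at f4 f5 f6 f9 g2 g3 g4
  obtain ⟨l3, hl3⟩ : ∃ l, l = Real.log l2 := ⟨_, rfl⟩
  rw [← hl3] at g3 g4
  obtain ⟨l4, hl4⟩ : ∃ l, l = Real.log l3 := ⟨_, rfl⟩
  rw [← hl4] at g4
  have hff : ff X = l1 * l2 ^ 2 * l4 / l3 ^ 2 := by
    unfold ff
    rw [← hl1, ← hl2, ← hl3, ← hl4]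
  have hS1 : (1 : ℝ) ≤ S.card := by exact_mod_cast hS.card_pos
  have hS0 : (0 : ℝ) < S.card := by linarith
  have t1 : 0 < 8 / c := by positivity
  have t2 : 0 < 2 ^ (A + 1) / δ := by positivity
  have t3 : 0 < 32 / δ := by positivity
  have p1 : 0 < l1 := by linarith
  have p2 : 1 < l2 := by linarith
  have p3 : 1 < l3 := by linarith
  have p4 : 0 < l4 := by linarith
  have r3 : l4 ≤ l3 := by
    have := Real.log_le_sub_one_of_pos (show 0 < l3 by linarith)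
    rw [hl4]; linarith
  have hff0 : 0 ≤ ff X := by rw [hff]; positivity
  have hff1 : ff X ≤ l1 * l2 ^ 2 := by
    rw [hff, div_le_iff₀ (by positivity)]
    have : l4 ≤ l3 ^ 2 := by nlinarith
    exact mul_le_mul_of_nonneg_left this (by positivity)
  obtain ⟨ℓ, hℓ⟩ : ∃ ℓ, ℓ = Real.log x := ⟨_, rfl⟩
  rw [← hℓ] at f1 f3 f5 f6 f7 hScard hSle
  obtain ⟨ℓ2, hℓ2⟩ : ∃ l, l = Real.log ℓ := ⟨_, rfl⟩
  rw [← hℓ2] at f5 f6 f7 hSle
  have hℓ21 : 1 ≤ ℓ2 := by linarith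
  have hℓ0 : 0 < ℓ := by linarith
  -- lower bound for `L`
  have hFlow : ℓ * ℓ2 / 4 ≤ F x := by
    have hFx : F x = ℓ * ℓ2 ^ 3 * Real.log (Real.log ℓ2) / (Real.log ℓ2) ^ 2 := by
      unfold F
      rw [← hℓ, ← hℓ2]
    have b1 : (Real.log ℓ2) ^ 2 ≤ 4 * ℓ2 := log_sq_le hℓ21
    have b2 : 0 < Real.log ℓ2 := by
      by_contra hcon
      push Not at hcon
      have : Real.log ℓ2 = 0 := le_antisymm hcon (Real.log_nonneg hℓ21)
      rw [this, Real.log_zero] at f7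
      linarith
    have b3 : (1 : ℝ) ≤ Real.log (Real.log ℓ2) := by linarith
    rw [hFx]
    calc ℓ * ℓ2 / 4 ≤ ℓ * ℓ2 ^ 2 / 4 := by
          have : ℓ2 ≤ ℓ2 ^ 2 := by nlinarith
          gcongr
      _ = ℓ * ℓ2 ^ 3 * 1 / (4 * ℓ2) := by field_simp
      _ ≤ ℓ * ℓ2 ^ 3 * Real.log (Real.log ℓ2) / (Real.log ℓ2) ^ 2 := by gcongr
  obtain ⟨Y, hY⟩ : ∃ Y, Y = F x := ⟨_, rfl⟩
  rw [← hY] at f8 f9 hFlow ⊢
  -- the length
  obtain ⟨L, hL⟩ : ∃ L : ℕ, L = ⌊c * Y / S.card⌋₊ := ⟨_, rfl⟩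
  have hU0 : 0 ≤ c * Y / S.card := div_nonneg (mul_nonneg hc0.le f8.le) hS0.le
  have hL1 : (L : ℝ) ≤ c * Y / S.card := by rw [hL]; exact Nat.floor_le hU0
  have hsq : √ℓ * √ℓ = ℓ := Real.mul_self_sqrt hℓ0.le
  have hsq1 : 10 ≤ √ℓ := by
    rw [Real.le_sqrt' (by norm_num)]
    linarith only [f1]
  have hc8 : 8 ≤ c * ℓ2 := by
    have : 8 / c ≤ ℓ2 := by linarith only [f5, g2, t1, t2, t3]
    rw [div_le_iff₀ hc0] at this
    linarith only [this]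
  have hU : √ℓ + 1 ≤ c * Y / S.card := by
    rw [le_div_iff₀ hS0]
    calc (√ℓ + 1) * S.card ≤ (2 * √ℓ) * √ℓ := by
          have e0 : √ℓ + 1 ≤ 2 * √ℓ := by linarith only [hsq1]
          exact mul_le_mul e0 hScard hS0.le (by positivity)
      _ = 8 * ℓ / 4 := by rw [mul_assoc, hsq]; ring
      _ ≤ (c * ℓ2) * ℓ / 4 := by gcongr
      _ = c * (ℓ * ℓ2 / 4) := by ring
      _ ≤ c * Y := by gcongr
  have hL2 : √ℓ ≤ L := by
    have := Nat.lt_floor_add_one (c * Y / S.card)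
    rw [← hL] at this
    linarith only [this, hU]
  have hL3 : 2 ≤ L := by
    have : (2 : ℝ) ≤ L := by linarith only [hL2, hsq1]
    exact_mod_cast this
  have hlogL : l2 / 2 ≤ Real.log L := by
    calc l2 / 2 ≤ ℓ2 / 2 := by linarith only [f5]
      _ = Real.log (√ℓ) := by rw [Real.log_sqrt hℓ0.le, hℓ2]
      _ ≤ Real.log L := Real.log_le_log (Real.sqrt_pos.2 hℓ0) hL2
  have hpi := Pool.Agent.H398R2.RK.primes_le L hL3
  obtain ⟨P, hP⟩ : ∃ P : Finset ℕ, P = (Finset.Icc 1 L).filter Nat.Prime := ⟨_, rfl⟩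
  rw [← hP] at hpi
  obtain ⟨Z, hZ⟩ : ∃ Z : Finset ℤ, Z = (S ×ˢ P).image (fun t : ℕ × ℕ => (t.1 : ℤ) - t.2) ∪
    (S ×ˢ P).image (fun t : ℕ × ℕ => (t.1 : ℤ) + t.2) := ⟨_, rfl⟩
  have hFu : Y ≤ 16 / δ * (l1 * l2 ^ 3) := by
    calc Y ≤ 16 / δ * (ff X * l2) := f9
      _ ≤ 16 / δ * (l1 * l2 ^ 2 * l2) := by gcongr
      _ = 16 / δ * (l1 * l2 ^ 3) := by ring
  have hLF : (L : ℝ) ≤ Y := by
    calc (L : ℝ) ≤ c * Y / S.card := hL1
      _ ≤ 1 * Y / 1 := by gcongr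
      _ = Y := by ring
  have hsize : ℓ * ℓ2 ^ A + Y ≤ l1 * l2 ^ (A + 5) := by
    have e1 : ℓ * ℓ2 ^ A ≤ l1 * l2 ^ (A + 5) / 2 := by
      calc ℓ * ℓ2 ^ A ≤ (l1 / δ) * (2 * l2) ^ A := by rw [f3]; gcongr
        _ = l1 * l2 ^ A * (2 ^ (A + 1) / δ) / 2 := by rw [mul_pow, pow_succ]; ring
        _ ≤ l1 * l2 ^ A * l2 / 2 := by
            have e0 : 2 ^ (A + 1) / δ ≤ l2 := by linarith only [g2, t1, t2, t3]
            gcongr
        _ = l1 * l2 ^ (A + 1) / 2 := by rw [pow_succ]; ring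
        _ ≤ l1 * l2 ^ (A + 5) / 2 := by
            have := pow_le_pow_right₀ p2.le (show A + 1 ≤ A + 5 by omega)
            gcongr
    have e2 : Y ≤ l1 * l2 ^ (A + 5) / 2 := by
      calc Y ≤ 16 / δ * (l1 * l2 ^ 3) := hFu
        _ = (l1 * l2 ^ 3) * (32 / δ) / 2 := by ring
        _ ≤ (l1 * l2 ^ 3) * l2 / 2 := by
            have e0 : 32 / δ ≤ l2 := by linarith only [g2, t1, t2, t3]
            gcongr
        _ = l1 * l2 ^ 4 / 2 := by ring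
        _ ≤ l1 * l2 ^ (A + 5) / 2 := by
            have := pow_le_pow_right₀ p2.le (show 4 ≤ A + 5 by omega)
            gcongr
    linarith only [e1, e2]
  obtain ⟨n, hn1, hn2, hn3, hn4⟩ := h X hX1 M hM r Z
    (by
      intro z hz
      have hz' : ∃ s ∈ S, ∃ p ∈ P, z = (s : ℤ) - p ∨ z = (s : ℤ) + p := by
        rw [hZ, mem_union, mem_image, mem_image] at hz
        rcases hz with ⟨t, ht, rfl⟩ | ⟨t, ht, rfl⟩
        · exact ⟨t.1, (mem_product.1 ht).1, t.2, (mem_product.1 ht).2, Or.inl rfl⟩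
        · exact ⟨t.1, (mem_product.1 ht).1, t.2, (mem_product.1 ht).2, Or.inr rfl⟩
      obtain ⟨s, hs, p, hp, hzp⟩ := hz'
      have hpL : (p : ℝ) ≤ L := by
        rw [hP] at hp
        have := (mem_Icc.1 (mem_filter.1 hp).1).2
        exact_mod_cast this
      have hsL := hSle s hs
      have hp0 : (0 : ℝ) ≤ p := Nat.cast_nonneg p
      have hs0 : (0 : ℝ) ≤ s := Nat.cast_nonneg s
      rw [← hl1, ← hl2, abs_le]
      rcases hzp with rfl | rfl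
      · push_cast
        constructor <;> linarith only [hpL, hsL, hp0, hs0, hLF, hsize]
      · push_cast
        constructor <;> linarith only [hpL, hsL, hp0, hs0, hLF, hsize])
    (by
      have e1 : (Z.card : ℝ) ≤ 2 * (S.card * P.card) := by
        have a1 : Z.card ≤ (S ×ˢ P).card + (S ×ˢ P).card := by
          rw [hZ]
          exact (card_union_le _ _).trans (add_le_add card_image_le card_image_le)
        rw [card_product] at a1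
        have a2 : (Z.card : ℝ) ≤ (S.card * P.card : ℕ) + (S.card * P.card : ℕ) := by exact_mod_cast a1
        push_cast at a2
        linarith
      exact card_est hS0 (show (0 : ℝ) < l2 by linarith only [p2]) hδ hc0.le f8.le
        hc₀.le e1 hpi hL1 hlogL f9 hc2)
  refine ⟨n, hn1, hn2, hn3, ?_⟩
  intro s hs p q hp hq hpq
  by_contra hcon
  push Not at hcon
  have hpL : p ≤ L := by rw [hL]; exact Nat.le_floor hcon
  have hpP : p ∈ P := by rw [hP]; exact mem_filter.2 ⟨mem_Icc.2 ⟨hp.pos, hpL⟩, hp⟩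
  rcases hpq with hpq | hpq
  · apply hn4 ((s : ℤ) - p) (by
      rw [hZ]
      exact mem_union_left _ (mem_image.2 ⟨(s, p), mem_product.2 ⟨hs, hpP⟩, rfl⟩))
    have : (n : ℤ) + ((s : ℤ) - p) = (q : ℤ) := by omega
    rw [this]
    exact Nat.prime_iff_prime_int.1 hq
  · apply hn4 ((s : ℤ) + p) (by
      rw [hZ]
      exact mem_union_right _ (mem_image.2 ⟨(s, p), mem_product.2 ⟨hs, hpP⟩, rfl⟩))
    have : (n : ℤ) + ((s : ℤ) + p) = (q : ℤ) := by omega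
    rw [this]
    exact Nat.prime_iff_prime_int.1 hq

/-- many disjoint intervals of length `x ^ (δ / 2)` in `(x / 2, x]` -/
theorem many (δ : ℝ) (hδ : 0 < δ) (hδ1 : δ ≤ 1) : ∃ X₀ : ℝ, 1 ≤ X₀ ∧ ∀ x : ℝ, X₀ ≤ x →
    x ^ (δ / 2) ≤ x ^ δ ∧ ∀ P : ℕ → Prop,
      (∀ M : ℝ, x ^ (δ / 2) ≤ M → ∃ m : ℕ, M < m ∧ (m : ℝ) ≤ M + x ^ (δ / 2) ∧ P m) →
      x ^ (1 - δ) ≤ (Set.ncard {m : ℕ | (m : ℝ) ≤ x ∧ P m} : ℝ) := by
  have t1 := (tendsto_rpow_atTop (show 0 < δ / 2 by positivity)).eventually_ge_atTop 4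
  obtain ⟨X₁, h₁⟩ := Filter.eventually_atTop.1 t1
  refine ⟨max X₁ 16, (by norm_num : (1 : ℝ) ≤ 16).trans (le_max_right _ _), fun x hx => ?_⟩
  have hx1 := h₁ x ((le_max_left _ _).trans hx)
  have hx16 : 16 ≤ x := (le_max_right _ _).trans hx
  have hx0 : 0 < x := by linarith
  refine ⟨Real.rpow_le_rpow_of_exponent_le (by linarith) (by linarith), fun P hP => ?_⟩
  obtain ⟨X, hX⟩ : ∃ X, X = x ^ (δ / 2) := ⟨_, rfl⟩
  rw [← hX] at hx1 hP
  have hX0 : 0 < X := by linarith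
  obtain ⟨Y, hY⟩ : ∃ Y, Y = x ^ (1 - δ / 2) := ⟨_, rfl⟩
  have hXY : X * Y = x := by
    rw [hX, hY, ← Real.rpow_add hx0]
    ring_nf
    exact Real.rpow_one x
  obtain ⟨Z, hZ⟩ : ∃ Z, Z = x ^ (1 - δ) := ⟨_, rfl⟩
  have hZX : Z * X = Y := by
    rw [hX, hY, hZ, ← Real.rpow_add hx0]
    ring_nf
  have hZ1 : 1 ≤ Z := by rw [hZ]; exact Real.one_le_rpow (by linarith) (by linarith)
  have hsqrt : X ≤ √x := by
    rw [hX, Real.sqrt_eq_rpow]
    exact Real.rpow_le_rpow_of_exponent_le (by linarith) (by linarith)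
  have hs2 : √x * √x = x := Real.mul_self_sqrt hx0.le
  have hs4 : 4 ≤ √x := by
    rw [Real.le_sqrt' (by norm_num)]; linarith
  have hXx : X ≤ x / 2 := by nlinarith
  obtain ⟨J, hJ⟩ : ∃ J : ℕ, J = ⌊Y / 2⌋₊ := ⟨_, rfl⟩
  have hY0 : 0 ≤ Y := by rw [hY]; positivity
  have hJ1 : (J : ℝ) ≤ Y / 2 := by rw [hJ]; exact Nat.floor_le (by linarith)
  have hJ2 : Z ≤ J := by
    have := Nat.lt_floor_add_one (Y / 2)
    rw [← hJ] at this
    nlinarith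
  have hM : ∀ j : ℕ, X ≤ x / 2 + j * X := fun j => by
    have : 0 ≤ (j : ℝ) * X := by positivity
    linarith
  choose m hm1 hm2 hm3 using fun j : ℕ => hP (x / 2 + j * X) (hM j)
  have hinj : Function.Injective m := by
    intro i j hij
    by_contra hne
    rcases Nat.lt_or_gt_of_ne hne with h | h
    · have h1 := hm2 i
      have h2 := hm1 j
      rw [hij] at h1
      have h3 : ((i : ℝ) + 1) * X ≤ j * X := by
        apply mul_le_mul_of_nonneg_right _ hX0.le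
        exact_mod_cast h
      nlinarith
    · have h1 := hm2 j
      have h2 := hm1 i
      rw [← hij] at h1
      have h3 : ((j : ℝ) + 1) * X ≤ i * X := by
        apply mul_le_mul_of_nonneg_right _ hX0.le
        exact_mod_cast h
      nlinarith
  have hfin : {m : ℕ | (m : ℝ) ≤ x ∧ P m}.Finite :=
    (Set.finite_Iic ⌊x⌋₊).subset fun n hn => Nat.le_floor hn.1
  have hsub : m '' (Finset.range J : Set ℕ) ⊆ {m : ℕ | (m : ℝ) ≤ x ∧ P m} := by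
    rintro _ ⟨j, hj, rfl⟩
    refine ⟨?_, hm3 j⟩
    have hjJ : j + 1 ≤ J := by
      rw [Finset.coe_range, Set.mem_Iio] at hj; omega
    have h3 : ((j : ℝ) + 1) * X ≤ (Y / 2) * X := by
      apply mul_le_mul_of_nonneg_right _ hX0.le
      have : ((j : ℝ) + 1) ≤ J := by exact_mod_cast hjJ
      linarith
    have h4 : (Y / 2) * X = x / 2 := by rw [← hXY]; ring
    have := hm2 j
    nlinarith
  have h5 := Set.ncard_le_ncard hsub hfin
  rw [Set.ncard_image_of_injective _ hinj, Set.ncard_coe_finset, Finset.card_range] at h5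
  rw [← hZ]
  exact hJ2.trans (by exact_mod_cast h5)

/-- **Large least primes on patterns.** -/
theorem result (δ : ℝ) (hδ : 0 < δ) (hδ1 : δ ≤ 1) (A D : ℕ) (hD : 0 < D) : ∃ c : ℝ, 0 < c ∧
    ∃ X₀ : ℝ, ∀ x : ℝ, X₀ ≤ x → ∀ (r : ℕ) (S : Finset ℕ), S.Nonempty →
      (S.card : ℝ) ≤ √(Real.log x) → (∀ s ∈ S, (s : ℝ) ≤ Real.log x * Real.log (Real.log x) ^ A) →
      (∀ M : ℝ, x ^ δ ≤ M → ∃ m : ℕ, M < m ∧ (m : ℝ) ≤ M + x ^ δ ∧ m ≡ r [MOD D] ∧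
        AllLarge S (c * F x / S.card) m) ∧
      x ^ (1 - δ) ≤ (Set.ncard {m : ℕ | (m : ℝ) ≤ x ∧ m ≡ r [MOD D] ∧
        AllLarge S (c * F x / S.card) m} : ℝ) := by
  obtain ⟨c, hc, X₁, hX₁, h₁⟩ := core (δ / 2) (by positivity) (by linarith) A D hD
  obtain ⟨X₂, hX₂, h₂⟩ := many δ hδ hδ1
  refine ⟨c, hc, max X₁ X₂, fun x hx r S hS hSc hSl => ?_⟩
  obtain ⟨h3, h4⟩ := h₂ x ((le_max_right _ _).trans hx)
  have h5 := fun M hM => h₁ x ((le_max_left _ _).trans hx) M hM r S hS hSc hSl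
  refine ⟨fun M hM => ?_, h4 _ h5⟩
  obtain ⟨m, hm1, hm2, hm3, hm4⟩ := h5 M (h3.trans hM)
  exact ⟨m, hm1, hm2.trans (by linarith), hm3, hm4⟩

end Pool.Agent.Results.MP_bae66e_nt.LargeOnPatterns
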