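import Pool.Agent.T2h81.LD.K2

set_option autoImplicit false

/-!
# The least prime in Goldbach representations, along any well distributed family of even integers

Let `g(m)` be the least prime `p` such that `m - p` is prime (`∞` if there is none).

(1) Let `r ≥ 1` and `0 < δ ≤ 1`. There are `C, X₀ > 0` such that for all `X ≥ X₀`, all `1 ≤ lam ≤ (log log X) / C` and
all finite families of integer vectors `v(i) = (v₁(i), …, v_r(i))`, `i ∈ s`, with the level of distribution `X ^ δ` for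
odd moduli: at least `|s| exp (- exp (C lam))` of the `i ∈ s` have `g(2 v_j(i)) > lam log X log log X` for all `j ≤ r`.

(2) In particular: let `P₁, …, P_r` be real polynomials with positive leading coefficients such that no nontrivial
integer combination `h₁ P₁ + ⋯ + h_r P_r` has only rational coefficients in positive degree, and suppose that all
coefficients of positive degree lie in the ring generated by the real algebraic numbers and `e`, or that the
Diophantine condition below holds. There are `C, Z₀ > 0` such that for all `Z ≥ Z₀`, `M ≥ Z` and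
`1 ≤ lam ≤ (log log Z) / C` at least `Z exp (- exp (C lam))` integers `n ∈ (M, M + Z]` are such that all the `r + 1` even
integers `2 n, 2 ⌊P₁(n)⌋, …, 2 ⌊P_r(n)⌋` have `g > lam log Z log log Z`.

The expected order of `g(m)` for most `m` is `log m log log m`; the starting files have larger values of `g`, for far
fewer integers. Proof: the hypergraph covering theorem of the library (`Y831.RC`, here `T2h81.RF`) with a profile
depending on `lam`, for all shifts by the primes up to `lam log X log log X`, over the classes of vectors modulo the odd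
primes up to `log X / 512` (`T2h81.LD.ld_gen`).
-/

namespace Pool.Agent.Results.MP_bae66e_nt.WellDistributedFamilies

open Finset

/-- `g(m) > y`: every prime `p` such that `m - p` is a prime is larger than `y` -/
def LeastExceeds (m : ℤ) (y : ℝ) : Prop :=
  ∀ p q : ℕ, p.Prime → q.Prime → (p : ℤ) + q = m → y < p

/-- For every odd `q ≤ X ^ δ` each class of vectors modulo `q` contains the expected number `|s| / q ^ r` of the
vectors `v i`, `i ∈ s`, up to an error of at most `|s| X ^ (-δ)`. -/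
def HasOddLevel {r : ℕ} {ι : Type} (s : Finset ι) (v : ι → Fin r → ℤ) (X δ : ℝ) : Prop :=
  ∀ q : ℕ, Odd q → (q : ℝ) ≤ X ^ δ → ∀ ρ : Fin r → ℤ,
    |(({i : ι | i ∈ s ∧ ∀ j, v i j ≡ ρ j [ZMOD q]}.ncard : ℕ) : ℝ) - s.card / (q : ℝ) ^ r| ≤
      s.card * X ^ (-δ)

/-- no nontrivial integer combination of the polynomials has only rational coefficients in positive degree -/
def Independent {r : ℕ} (P : Fin r → Polynomial ℝ) : Prop :=
  ∀ h : Fin r → ℤ, h ≠ 0 → ∃ i, 1 ≤ i ∧ Irrational ((∑ j, h j • P j).coeff i)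

/-- all coefficients of positive degree lie in the ring generated by the real algebraic numbers and `e` -/
def AlgebraicOrE {r : ℕ} (P : Fin r → Polynomial ℝ) : Prop :=
  ∀ j i, 1 ≤ i → (P j).coeff i ∈ Algebra.adjoin ℚ ({x : ℝ | IsAlgebraic ℚ x} ∪ {Real.exp 1})

/-- for some `c, τ > 0`: if the entries of the integer vector `h` are at most `H`, then the irrational coefficient of
`h₁ P₁ + ⋯ + h_r P_r` of the highest degree (if there is one in positive degree) has distance at least `c H ^ (-τ)`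
from the integers -/
def Diophantine {r : ℕ} (P : Fin r → Polynomial ℝ) : Prop :=
  ∃ c τ : ℝ, 0 < c ∧ 0 < τ ∧ ∀ (H : ℕ) (h : Fin r → ℤ), (∀ j, |h j| ≤ H) → ∀ i, 1 ≤ i →
    Irrational ((∑ j, h j • P j).coeff i) → (∀ l, i < l → ¬ Irrational ((∑ j, h j • P j).coeff l)) →
    ∀ m : ℤ, c * (H : ℝ) ^ (-τ) ≤ |(∑ j, h j • P j).coeff i - m|

lemma coeff_comb {r : ℕ} (P : Fin r → Polynomial ℝ) (h : Fin r → ℤ) (i : ℕ) :
    (∑ j, h j • P j).coeff i = ∑ j, (h j : ℝ) * (P j).coeff i := by
  rw [Polynomial.finsetSum_coeff]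
  apply Finset.sum_congr rfl
  intro j _
  rw [Polynomial.coeff_smul, zsmul_eq_mul]

lemma exp_le_log (C Z lam : ℝ) (hC : 0 < C) (hZ : 2 ≤ Z) (h : lam ≤ Real.log (Real.log Z) / C) :
    Real.exp (C * lam) ≤ Real.log Z := by
  have hlog : 0 < Real.log Z := Real.log_pos (by linarith)
  rw [le_div_iff₀ hC] at h
  rw [← Real.exp_log hlog]
  apply Real.exp_le_exp.2
  linarith

theorem families (r : ℕ) (hr : 1 ≤ r) (δ : ℝ) (hδ : 0 < δ) (hδ1 : δ ≤ 1) :
    ∃ C : ℝ, 0 < C ∧ ∃ X₀ : ℝ, ∀ X : ℝ, X₀ ≤ X → ∀ lam : ℝ, 1 ≤ lam →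
      lam ≤ Real.log (Real.log X) / C →
      ∀ (ι : Type) (s : Finset ι) (v : ι → Fin r → ℤ), HasOddLevel s v X δ →
      (s.card : ℝ) * Real.exp (-Real.exp (C * lam)) ≤
        (({i : ι | i ∈ s ∧ ∀ j, LeastExceeds (2 * v i j)
          (lam * Real.log X * Real.log (Real.log X))}.ncard : ℕ) : ℝ) := by
  classical
  have hr1 : (1:ℝ) ≤ r := by exact_mod_cast hr
  obtain ⟨θ, hθ⟩ : ∃ θ : ℝ, θ = δ / (2 * r) := ⟨_, rfl⟩
  have hθ0 : 0 < θ := by rw [hθ]; positivity
  have hθr : θ * (2 * r) = δ := by rw [hθ]; field_simp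
  have hθδ : θ ≤ δ := by
    rw [hθ]
    apply div_le_self hδ.le
    linarith
  obtain ⟨C, hC, hcr⟩ := Pool.Agent.T2h81.LD.gold_core r hr θ hθ0 (by linarith)
  obtain ⟨Z₀, h0⟩ := Filter.eventually_atTop.mp hcr
  refine ⟨C, by linarith, max Z₀ 2, fun Z hZ lam hlam hlamZ ι s v hv => ?_⟩
  have hZ2 : 2 ≤ Z := (le_max_right _ _).trans hZ
  have hZ0 : 0 < Z := by linarith
  have hex := exp_le_log C Z lam (by linarith) hZ2 hlamZ
  refine (h0 Z ((le_max_left _ _).trans hZ) lam hlam hex ι s v ?_).trans ?_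
  · intro q hq hqZ ρ
    have h1 := hv q hq (hqZ.trans ?_) ρ
    · have e1 : (Z ^ θ) ^ (-(2 * (r : ℝ))) = Z ^ (-δ) := by
        rw [← Real.rpow_mul hZ0.le]
        congr 1
        linarith
      rw [e1]
      convert h1 using 5
      rw [← Set.ncard_coe_finset, Finset.coe_filter]
      congr 1
      ext i
      simp only [Set.mem_ofPred_eq]
      apply and_congr_right
      intro _
      apply forall_congr'
      intro j
      rw [Int.modEq_comm, Int.modEq_iff_dvd]
    · rw [← Real.rpow_mul hZ0.le]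
      apply Real.rpow_le_rpow_of_exponent_le (by linarith)
      linarith
  · rw [Nat.cast_le, ← Set.ncard_coe_finset]
    apply Set.ncard_le_ncard
    · intro i hi
      rw [Finset.mem_coe, Finset.mem_filter] at hi
      refine ⟨hi.1, fun j p q hp hq hpq => ?_⟩
      by_contra hcon
      push Not at hcon
      exact hi.2 j p q hp hq hcon hpq
    · apply Set.Finite.subset (Finset.finite_toSet s)
      rintro i ⟨h1, -⟩
      exact h1

theorem result :
    (∀ r : ℕ, 1 ≤ r → ∀ δ : ℝ, 0 < δ → δ ≤ 1 →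
      ∃ C : ℝ, 0 < C ∧ ∃ X₀ : ℝ, ∀ X : ℝ, X₀ ≤ X → ∀ lam : ℝ, 1 ≤ lam →
        lam ≤ Real.log (Real.log X) / C →
        ∀ (ι : Type) (s : Finset ι) (v : ι → Fin r → ℤ), HasOddLevel s v X δ →
        (s.card : ℝ) * Real.exp (-Real.exp (C * lam)) ≤
          (({i : ι | i ∈ s ∧ ∀ j, LeastExceeds (2 * v i j)
            (lam * Real.log X * Real.log (Real.log X))}.ncard : ℕ) : ℝ)) ∧
    (∀ r : ℕ, 1 ≤ r → ∀ P : Fin r → Polynomial ℝ, (∀ j, 0 < (P j).leadingCoeff) → Independent P →
      AlgebraicOrE P ∨ Diophantine P →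
      ∃ C : ℝ, 0 < C ∧ ∃ Z₀ : ℝ, ∀ Z : ℝ, Z₀ ≤ Z → ∀ M : ℝ, Z ≤ M → ∀ lam : ℝ, 1 ≤ lam →
        lam ≤ Real.log (Real.log Z) / C →
        Z * Real.exp (-Real.exp (C * lam)) ≤
          (({n : ℕ | M < n ∧ (n : ℝ) ≤ M + Z ∧
            LeastExceeds (2 * n) (lam * Real.log Z * Real.log (Real.log Z)) ∧
            ∀ j, LeastExceeds (2 * ⌊(P j).eval (n : ℝ)⌋)
              (lam * Real.log Z * Real.log (Real.log Z))}.ncard : ℕ) : ℝ)) := by
  classical
  refine ⟨families, ?_⟩
  intro r hr P hlc hind hP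
  have hind' : ∀ h : Fin r → ℤ, h ≠ 0 → ∃ i, 1 ≤ i ∧
      Irrational (∑ j, (h j : ℝ) * (P j).coeff i) := by
    intro h hh
    obtain ⟨i, hi, hirr⟩ := hind h hh
    exact ⟨i, hi, by rw [← coeff_comb]; exact hirr⟩
  have key : ∃ C : ℝ, 1 ≤ C ∧ ∃ Z₀ : ℝ, ∀ Z : ℝ, Z₀ ≤ Z → ∀ M : ℝ, Z ≤ M → ∀ lam : ℝ, 1 ≤ lam →
      Real.exp (C * lam) ≤ Real.log Z →
      Z * Real.exp (-Real.exp (C * lam)) ≤ (((Finset.Ioc ⌊M⌋₊ ⌊M + Z⌋₊).filter (fun n : ℕ =>
        ∀ p q : ℕ, p.Prime → q.Prime → (p : ℝ) ≤ lam * Real.log Z * Real.log (Real.log Z) →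
          (p : ℤ) + q ≠ 2 * n ∧ ∀ j, (p : ℤ) + q ≠ 2 * ⌊(P j).eval (n : ℝ)⌋)).card : ℝ) := by
    rcases hP with hP | ⟨c, τ, hc, hτ, hd⟩
    · exact Pool.Agent.T2h81.LD.polys_alg_gold r hr P hlc hP hind'
    · refine Pool.Agent.T2h81.LD.polys_gold r hr P hlc hind' c τ hc ?_
      intro H h hH i hi hirr hl m
      have hH' : ∀ j, |h j| ≤ (⌊H⌋₊ : ℤ) := by
        intro j
        have h3 : ((h j).natAbs : ℝ) ≤ H := by
          rw [Nat.cast_natAbs]
          push_cast
          exact hH j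
        have h4 : (h j).natAbs ≤ ⌊H⌋₊ := Nat.le_floor h3
        rw [← Int.natCast_natAbs]
        exact_mod_cast h4
      have h1 := hd ⌊H⌋₊ h hH' i hi (by rw [coeff_comb]; exact hirr)
        (fun l hl' => by rw [coeff_comb]; exact hl l hl') m
      rw [coeff_comb] at h1
      refine le_trans (mul_le_mul_of_nonneg_left ?_ hc.le) h1
      have hj : ∃ j, h j ≠ 0 := by
        by_contra hcon
        push Not at hcon
        apply hirr
        refine ⟨0, ?_⟩
        simp [hcon]
      obtain ⟨j, hj⟩ := hj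
      have h5 : 1 ≤ ⌊H⌋₊ := by
        have := Int.one_le_abs hj
        have := hH' j
        omega
      have h6 : (0 : ℝ) < ⌊H⌋₊ := by exact_mod_cast h5
      have hH0 : 0 ≤ H := by
        by_contra hcon
        push Not at hcon
        have := hH j
        have := abs_nonneg (h j : ℝ)
        linarith
      exact Real.rpow_le_rpow_of_nonpos h6 (Nat.floor_le hH0) (by linarith)
  obtain ⟨C, hC, Z₀, h0⟩ := key
  refine ⟨C, by linarith, max Z₀ 2, fun Z hZ M hM lam hlam hlamZ => ?_⟩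
  have hZ2 : 2 ≤ Z := (le_max_right _ _).trans hZ
  have hM0 : 0 ≤ M := by linarith
  have hex := exp_le_log C Z lam (by linarith) hZ2 hlamZ
  refine (h0 Z ((le_max_left _ _).trans hZ) M hM lam hlam hex).trans ?_
  rw [Nat.cast_le, ← Set.ncard_coe_finset]
  apply Set.ncard_le_ncard
  · intro n hn
    rw [Finset.mem_coe, Finset.mem_filter, Finset.mem_Ioc, Nat.floor_lt hM0,
      Nat.le_floor_iff (by linarith)] at hn
    refine ⟨hn.1.1, hn.1.2, fun p q hp hq hpq => ?_, fun j p q hp hq hpq => ?_⟩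
    · by_contra hcon
      push Not at hcon
      exact (hn.2 p q hp hq hcon).1 hpq
    · by_contra hcon
      push Not at hcon
      exact (hn.2 p q hp hq hcon).2 j hpq
  · apply Set.Finite.subset (Finset.finite_toSet (Finset.Ioc ⌊M⌋₊ ⌊M + Z⌋₊))
    rintro n ⟨h1, h2, -⟩
    rw [Finset.mem_coe, Finset.mem_Ioc, Nat.floor_lt hM0, Nat.le_floor_iff (by linarith)]
    exact ⟨h1, h2⟩

end Pool.Agent.Results.MP_bae66e_nt.WellDistributedFamilies
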